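import Pool.Agent.Helper93_Refl.Norm
import Pool.Agent.Helper23_Refl.StmtC4

/-!
# NORM2: norms of roots divide `2 e`, where `e A^(-1)` is integral
-/

namespace Pool.Agent.Refl.H13

open Matrix Pool.Agent.Refl

theorem matI_symm (A : K.I10) : (matI A).transpose = matI A := by
  ext i j
  fin_cases i <;> fin_cases j <;> rfl

theorem invC_spec (hL : LinAStmt) (A X : K.I10) (e : ℕ) (h : K.invC A X e = true) :
    matI A * matI X = (e : ℤ) • (1 : M4) := by
  obtain ⟨-, hmul, -, -, -, -, heq, -⟩ := hL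
  rw [K.invC, H93.ands_iff, H93.ands_iff, H93.ands_iff, heq, heq, heq, heq, hmul, hmul, hmul,
    hmul] at h
  obtain ⟨⟨h0, h1⟩, h2, h3⟩ := h
  ext i j
  have key : ∀ (v w : Z4), (∀ k, v k = matI X k j) → (matI A).mulVec v = w →
      (∀ k, w k = ((e : ℤ) • (1 : M4)) k j) →
      (matI A * matI X) i j = ((e : ℤ) • (1 : M4)) i j := by
    intro v w hv hw hw'
    rw [← hw' i, ← hw, Matrix.mul_apply]
    unfold Matrix.mulVec dotProduct
    exact Finset.sum_congr rfl fun k _ => by rw [hv k]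
  fin_cases j
  · refine key _ _ ?_ h0 ?_ <;> intro k <;> fin_cases k <;> simp [vI, matI]
  · refine key _ _ ?_ h1 ?_ <;> intro k <;> fin_cases k <;> simp [vI, matI]
  · refine key _ _ ?_ h2 ?_ <;> intro k <;> fin_cases k <;> simp [vI, matI]
  · refine key _ _ ?_ h3 ?_ <;> intro k <;> fin_cases k <;> simp [vI, matI]

theorem norm2 (hL : LinAStmt) (hPrime : PrimeStmt) : Norm2Stmt := by
  intro A X e r ml hLat hr he hX hprl g hg
  have hAX := invC_spec hL A X e hX
  have hXA : matI X * matI A = (e : ℤ) • (1 : M4) := by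
    have := congrArg Matrix.transpose hAX
    rwa [Matrix.transpose_mul, matI_symm, matI_symm, Matrix.transpose_smul,
      Matrix.transpose_one] at this
  have her : (matI X).mulVec ((matI A).mulVec r) = (e : ℤ) • r := by
    rw [Matrix.mulVec_mulVec, hXA, Matrix.smul_mulVec, Matrix.one_mulVec]
  set Kn : ℤ := bz (matI A) r r with hKn
  have h1 : ∀ i, Kn ∣ 2 * e * r i := by
    intro i
    have h2 : (e : ℤ) * r i = ∑ k, matI X i k * (matI A).mulVec r k := by
      have := congrFun her i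
      rw [Pi.smul_apply, smul_eq_mul] at this
      rw [← this]
      rfl
    rw [mul_assoc, h2, Finset.mul_sum]
    refine Finset.dvd_sum fun k _ => ?_
    have h3 := H93.root_dvd_mulVec hr k
    have h4 : 2 * (matI X i k * (matI A).mulVec r k) = matI X i k * (2 * (matI A).mulVec r k) := by
      ring
    rw [h4]
    exact h3.mul_left _
  have hpos : 0 < Kn := hr.pos
  have h2 : Kn ∣ 2 * e := by
    set d : ℕ := Int.gcd Kn (2 * e) with hd
    have hdpos : 0 < d := Int.gcd_pos_of_ne_zero_left _ hpos.ne'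
    obtain ⟨x, hx⟩ : (d : ℤ) ∣ Kn := Int.gcd_dvd_left _ _
    obtain ⟨y, hy⟩ : (d : ℤ) ∣ 2 * e := Int.gcd_dvd_right _ _
    have hcop : IsCoprime x y := by
      have hb := Int.gcd_eq_gcd_ab Kn (2 * e)
      refine ⟨Int.gcdA Kn (2 * e), Int.gcdB Kn (2 * e), ?_⟩
      have hd0 : (d : ℤ) ≠ 0 := by exact_mod_cast hdpos.ne'
      apply mul_left_cancel₀ hd0
      rw [← hd] at hb
      calc (d : ℤ) * (Int.gcdA Kn (2 * e) * x + Int.gcdB Kn (2 * e) * y)
          = ((d : ℤ) * x) * Int.gcdA Kn (2 * e) + ((d : ℤ) * y) * Int.gcdB Kn (2 * e) := by ring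
        _ = Kn * Int.gcdA Kn (2 * e) + (2 * e) * Int.gcdB Kn (2 * e) := by rw [← hx, ← hy]
        _ = (d : ℤ) * 1 := by rw [← hb, mul_one]
    have hxr : ∀ i, x ∣ r i := by
      intro i
      have h3 := h1 i
      have h4 : (d : ℤ) * x ∣ (d : ℤ) * (y * r i) := by
        rw [← mul_assoc, ← hx, ← hy]
        exact h3
      have hd0 : (d : ℤ) ≠ 0 := by exact_mod_cast hdpos.ne'
      have h5 : x ∣ y * r i := (mul_dvd_mul_iff_left hd0).1 h4
      exact hcop.dvd_of_dvd_mul_left h5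
    have hu := hr.prim x hxr
    obtain ⟨u, hu⟩ := hu
    have h6 : (d : ℤ) = Kn * ((u⁻¹ : ℤˣ) : ℤ) := by
      rw [hx, ← hu, mul_assoc, Units.mul_inv, mul_one]
    have h7 : Kn ∣ (d : ℤ) := ⟨_, h6⟩
    exact h7.trans (Int.gcd_dvd_right _ _)
  have h3 : Kn.natAbs ∣ 2 * e := by
    have := Int.natAbs_dvd_natAbs.2 h2
    have h4 : (2 * (e : ℤ)).natAbs = 2 * e := by
      rw [Int.natAbs_mul]
      rfl
    rwa [h4] at this
  have hne : K.prl ml ≠ 0 := by
    rw [hprl]
    omega
  have h5 := H93.dvl_spec hPrime g ml 1 hg hne Kn.natAbs (by rw [hprl]; exact h3)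
  rwa [one_mul] at h5

end Pool.Agent.Refl.H13
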