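import Pool.Agent.Helper69_Refl.NonR
import Pool.Agent.Helper91_Refl.ResNap

/-!
# Module REST: a sublattice which is isometric to a lattice of the table
-/

namespace Pool.Agent.Refl.H13T

open Matrix Pool.Agent.Refl

theorem rdL_spec (hpk : PkZStmt) {O : K.OC} {F : List K.I4} {B : List Z4} (hO : OCok O F)
    (hB : B.length ≤ 3) {w s : ℕ} {f : K.I4 → ℕ → ℕ}
    (h : K.rdL O (B.map (pkZ O.p)) w s f ≠ 0) :
    ∃ (v : K.I4) (s' : ℕ), vI v ∈ SubX O.p B ∧ f v s' ≠ 0 := by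
  have hp : 1 ≤ O.p := hO.pr.one_le
  unfold K.rdL at h
  obtain ⟨z, s1, h1⟩ := H69.rdI_ex w s (fun v s =>
    K.rdCo (B.map (pkZ O.p)) (fun t s => Bool.rec 0 (f v s) (Nat.beq (K.pkI O.p v) (K.redm O.p t))) s)
  rw [h1] at h
  obtain ⟨t, s', v, hf, hv, ht⟩ := H91R.rdCo_spec' hpk hp hO.ple hB h
  obtain ⟨hb, hf'⟩ := H69.bool_rec_ne_zero hf
  rw [ht, H91R.beq_iff] at hb
  obtain ⟨P1, P2, -, -, -⟩ := hpk O.p hp hO.ple
  rw [P2, P1] at hb
  exact ⟨z, s', H91R.cg_mem hb hv, hf'⟩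

theorem matG_mulVec_mem {X : Submodule ℤ Z4} {g : K.I16} (h0 : vI g.c0 ∈ X) (h1 : vI g.c1 ∈ X)
    (h2 : vI g.c2 ∈ X) (h3 : vI g.c3 ∈ X) (x : Z4) : (matG g).mulVec x ∈ X := by
  have : (matG g).mulVec x = x 0 • vI g.c0 + x 1 • vI g.c1 + x 2 • vI g.c2 + x 3 • vI g.c3 := by
    ext i
    simp only [Matrix.mulVec, dotProduct, Fin.sum_univ_four, Pi.add_apply, Pi.smul_apply,
      smul_eq_mul]
    show vI g.c0 i * x 0 + vI g.c1 i * x 1 + vI g.c2 i * x 2 + vI g.c3 i * x 3 = _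
    ring
  rw [this]
  exact X.add_mem (X.add_mem (X.add_mem (X.smul_mem _ h0) (X.smul_mem _ h1)) (X.smul_mem _ h2))
    (X.smul_mem _ h3)

theorem formC_mat (A : K.I10) (g : K.I16) (T : K.I10) (c : ℤ) (h : K.formC A g T c = true) :
    (matG g).transpose * matI A * matG g = c • matI T := by
  have h' : K.formC A g T c = K.ands (K.ands
    (K.ands (Int.beq' (K.dotI g.c0 (K.mulI A g.c0)) (c * T.a00))
      (Int.beq' (K.dotI g.c0 (K.mulI A g.c1)) (c * T.a01)))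
    (K.ands (Int.beq' (K.dotI g.c0 (K.mulI A g.c2)) (c * T.a02))
      (Int.beq' (K.dotI g.c0 (K.mulI A g.c3)) (c * T.a03))))
    (K.ands (K.ands (Int.beq' (K.dotI g.c1 (K.mulI A g.c1)) (c * T.a11))
      (K.ands (Int.beq' (K.dotI g.c1 (K.mulI A g.c2)) (c * T.a12))
      (Int.beq' (K.dotI g.c1 (K.mulI A g.c3)) (c * T.a13))))
      (K.ands (Int.beq' (K.dotI g.c2 (K.mulI A g.c2)) (c * T.a22))
        (K.ands (Int.beq' (K.dotI g.c2 (K.mulI A g.c3)) (c * T.a23))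
        (Int.beq' (K.dotI g.c3 (K.mulI A g.c3)) (c * T.a33))))) := rfl
  rw [h'] at h
  simp only [H93.ands_iff, Int.beq'_eq, H93.dotI_mulI] at h
  obtain ⟨⟨⟨h00, h01⟩, h02, h03⟩, ⟨h11, h12, h13⟩, h22, h23, h33⟩ := h
  have key : ∀ i j, ((matG g).transpose * matI A * matG g) i j =
      bz (matI A) (vI (![g.c0, g.c1, g.c2, g.c3] i)) (vI (![g.c0, g.c1, g.c2, g.c3] j)) := by
    intro i j
    rw [H93.bz_eq, Matrix.mul_assoc, Matrix.mul_apply]
    simp only [dotProduct]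
    rfl
  ext i j
  rw [key, Matrix.smul_apply, smul_eq_mul]
  fin_cases i <;> fin_cases j
  · exact h00
  · exact h01
  · exact h02
  · exact h03
  · exact (H93.bz_commA A _ _).trans h01
  · exact h11
  · exact h12
  · exact h13
  · exact (H93.bz_commA A _ _).trans h02
  · exact (H93.bz_commA A _ _).trans h12
  · exact h22
  · exact h23
  · exact (H93.bz_commA A _ _).trans h03
  · exact (H93.bz_commA A _ _).trans h13
  · exact (H93.bz_commA A _ _).trans h23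
  · exact h33

/-- REST -/
theorem resT (hpk : PkZStmt) : ResTStmt := by
  intro O F B q c s hO hB h
  have h0 : K.resT O (B.map (pkZ O.p)) q c s =
      K.fc (Nat.mod s 4096) fun j => K.fc (Nat.mod (Nat.div s 4096) 64) fun w =>
      K.rdL O (B.map (pkZ O.p)) w (Nat.div s 262144) fun a s =>
      K.rdL O (B.map (pkZ O.p)) w s fun b s =>
      K.rdL O (B.map (pkZ O.p)) w s fun d s => K.rdL O (B.map (pkZ O.p)) w s fun e s =>
      K.okb (K.ands (Nat.blt j O.tn) (K.ands (Nat.beq (Int.natAbs (K.det4 a b d e)) q)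
        (K.formC O.A (K.I16.mk a b d e)
          (K.i10 24 (Nat.mod (Nat.shiftRight O.ta (Nat.mul 240 j)) (Nat.pow 2 240)))
          (Int.ofNat c)))) s := rfl
  rw [h0, H93.fc_eq, H93.fc_eq] at h
  obtain ⟨a, s1, ha, h⟩ := rdL_spec hpk hO hB h
  obtain ⟨b, s2, hb, h⟩ := rdL_spec hpk hO hB h
  obtain ⟨d, s3, hd, h⟩ := rdL_spec hpk hO hB h
  obtain ⟨e, s4, he, h⟩ := rdL_spec hpk hO hB h
  have h1 := H91R.okb_iff h
  rw [H93.ands_iff, H93.ands_iff] at h1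
  obtain ⟨hj, hdet, hform⟩ := h1
  refine ⟨matG (K.I16.mk a b d e), mtab O.ta (Nat.mod s 4096), ?_, ?_, ?_, ?_⟩
  · exact matG_mulVec_mem ha hb hd he
  · rw [← H69.det_matG]
    exact H91R.beq_iff.1 hdet
  · unfold tlist
    refine List.mem_map.2 ⟨Nat.mod s 4096, ?_, rfl⟩
    rw [List.mem_range]
    exact Nat.le_of_ble_eq_true hj
  · exact formC_mat O.A _ _ _ hform

end Pool.Agent.Refl.H13T
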