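import Pool.Agent.Helper93_Refl.Trans

/-!
# D6: isometries of a child extend to the parent
-/

namespace Pool.Agent.Refl.H13

open Matrix Pool.Agent.Refl Pool.Agent.Refl.H93

theorem ext_of_dvd {L R W W' : M4} {p c d : ℤ} (hp : p ≠ 0) (hd : d ≠ 0)
    (hW : W * W' = p • (1 : M4)) (h : c • L = d • (W.transpose * R * W))
    (hs : ∀ g ∈ OG L, ∀ i j, p ∣ (W * (g : M4) * W') i j) :
    ∀ g ∈ OG L, ∃ h ∈ OG R, (h : M4) * W = W * (g : M4) := by
  have hW2 := swap hp hW
  have hH : ∀ g ∈ OG L, ∃ H : M4, H * W = W * (g : M4) := by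
    intro g hg
    choose H hH using hs g hg
    refine ⟨Matrix.of H, ?_⟩
    have h1 : W * (g : M4) * W' = p • (Matrix.of H) := by
      ext i j
      rw [hH i j]
      simp
    apply cancel_smulM hp
    calc p • (Matrix.of H * W) = W * (g : M4) * W' * W := by rw [h1, Matrix.smul_mul]
      _ = W * (g : M4) * (W' * W) := by rw [Matrix.mul_assoc]
      _ = p • (W * (g : M4)) := by rw [hW2, Matrix.mul_smul, Matrix.mul_one]
  intro g hg
  obtain ⟨H, hH1⟩ := hH g hg
  obtain ⟨H', hH2⟩ := hH g⁻¹ (inv_mem hg)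
  have e1 : H * H' = 1 := by
    apply cancelW hp hW
    rw [Matrix.mul_assoc, hH2, ← Matrix.mul_assoc, hH1, Matrix.mul_assoc, ← Units.val_mul,
      mul_inv_cancel, Units.val_one, Matrix.mul_one, Matrix.one_mul]
  have e2 : H' * H = 1 := by
    apply cancelW hp hW
    rw [Matrix.mul_assoc, hH1, ← Matrix.mul_assoc, hH2, Matrix.mul_assoc, ← Units.val_mul,
      inv_mul_cancel, Units.val_one, Matrix.mul_one, Matrix.one_mul]
  refine ⟨⟨H, H', e1, e2⟩, ?_, hH1⟩
  show H.transpose * R * H = R
  have e3 : W.transpose * (H.transpose * R * H) * W = W.transpose * R * W := by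
    apply cancel_smulM hd
    have hg' : (g : M4).transpose * L * (g : M4) = L := hg
    calc d • (W.transpose * (H.transpose * R * H) * W)
        = d • ((H * W).transpose * R * (H * W)) := by
          rw [Matrix.transpose_mul]; simp only [Matrix.mul_assoc]
      _ = (g : M4).transpose * (d • (W.transpose * R * W)) * (g : M4) := by
          rw [hH1, Matrix.transpose_mul]
          simp only [Matrix.mul_smul, Matrix.smul_mul, Matrix.mul_assoc]
      _ = d • (W.transpose * R * W) := by
          rw [← h, Matrix.mul_smul, Matrix.smul_mul, hg']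
  have e4 := cancelW hp hW e3
  have e5 : (H.transpose * R * H).transpose * W = R.transpose * W := by
    have := congrArg Matrix.transpose e4
    rwa [Matrix.transpose_mul W.transpose (H.transpose * R * H), Matrix.transpose_mul W.transpose R,
      Matrix.transpose_transpose] at this
  have e6 := cancelW hp hW e5
  have := congrArg Matrix.transpose e6
  rwa [Matrix.transpose_transpose, Matrix.transpose_transpose] at this

theorem dvd_of_mulVec {A : M4} {p : ℤ} (h : ∀ r i, p ∣ A.mulVec r i) : ∀ i j, p ∣ A i j := by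
  intro i j
  have := h (Pi.single j 1) i
  rwa [Matrix.mulVec_single_one] at this

theorem dvd_mulVec {m : ℤ} {v : Z4} (A : M4) (h : ∀ i, m ∣ v i) (i : Fin 4) :
    m ∣ A.mulVec v i := by
  unfold Matrix.mulVec dotProduct
  exact Finset.dvd_sum fun j _ => Dvd.dvd.mul_left (h j) _

/-- `L` divisible modulo `m` is preserved by isometries -/
theorem dvd_isom {L : M4} {g : M4ˣ} (hg : g ∈ OG L) {m : ℤ} {x : Z4}
    (h : ∀ i, m ∣ L.mulVec x i) : ∀ i, m ∣ L.mulVec ((g : M4).mulVec x) i := by
  have h1 : L * (g : M4) = ((g⁻¹ : M4ˣ) : M4).transpose * L := by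
    have h2 : (g : M4).transpose * L * (g : M4) = L := hg
    have h3 : ((g⁻¹ : M4ˣ) : M4).transpose * (g : M4).transpose = 1 := by
      rw [← Matrix.transpose_mul, ← Units.val_mul, mul_inv_cancel, Units.val_one,
        Matrix.transpose_one]
    calc L * (g : M4) = ((g⁻¹ : M4ˣ) : M4).transpose * (g : M4).transpose * L * (g : M4) := by
          rw [h3, Matrix.one_mul]
      _ = ((g⁻¹ : M4ˣ) : M4).transpose * ((g : M4).transpose * L * (g : M4)) := by
          simp only [Matrix.mul_assoc]
      _ = _ := by rw [h2]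
  rw [Matrix.mulVec_mulVec, h1, ← Matrix.mulVec_mulVec]
  exact dvd_mulVec _ h

section modp

variable {p : ℕ}

/-- reduction of matrices -/
noncomputable def rd (p : ℕ) (A : M4) : Matrix (Fin 4) (Fin 4) (ZMod p) :=
  A.map (Int.castRingHom (ZMod p))

theorem rd_mul (A B : M4) : rd p (A * B) = rd p A * rd p B := Matrix.map_mul

theorem rd_transpose (A : M4) : rd p A.transpose = (rd p A).transpose := rfl

theorem rd_mulVec (A : M4) (v : Z4) :
    (rd p A).mulVec (fun i => ((v i : ℤ) : ZMod p)) = fun i => ((A.mulVec v i : ℤ) : ZMod p) := by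
  funext i
  exact (RingHom.map_mulVec (Int.castRingHom (ZMod p)) A v i).symm

theorem exists_lift (v : Fin 4 → ZMod p) : ∃ w : Z4, v = fun i => ((w i : ℤ) : ZMod p) := by
  choose w hw using fun i => ZMod.intCast_surjective (v i)
  exact ⟨w, funext fun i => (hw i).symm⟩

theorem cast_zero_iff (v : Z4) : (fun i => ((v i : ℤ) : ZMod p)) = 0 ↔ ∀ i, (p : ℤ) ∣ v i := by
  constructor
  · intro h i
    exact (ZMod.intCast_zmod_eq_zero_iff_dvd (v i) p).1 (congrFun h i)
  · intro h
    funext i
    exact (ZMod.intCast_zmod_eq_zero_iff_dvd (v i) p).2 (h i)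

theorem mem_ker_rd (A : M4) (v : Z4) :
    (fun i => ((v i : ℤ) : ZMod p)) ∈ LinearMap.ker (rd p A).mulVecLin ↔
      ∀ i, (p : ℤ) ∣ A.mulVec v i := by
  rw [LinearMap.mem_ker, Matrix.mulVecLin_apply, rd_mulVec, cast_zero_iff]

theorem rank_add_ker [Fact p.Prime] (A : Matrix (Fin 4) (Fin 4) (ZMod p)) :
    A.rank + Module.finrank (ZMod p) (LinearMap.ker A.mulVecLin) = 4 := by
  have := LinearMap.finrank_range_add_finrank_ker A.mulVecLin
  rw [Module.finrank_fin_fun] at this
  exact this

end modp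

theorem stabI : StabIStmt := by
  intro p R L W W' hp hR hL hW h hC
  have hp0 : (p : ℤ) ≠ 0 := by exact_mod_cast hp.ne_zero
  have := Fact.mk hp
  have hW2 := swap hp0 hW
  refine ext_of_dvd (c := 1) (d := 1) hp0 one_ne_zero hW (by rw [one_smul, one_smul, h]) ?_
  intro g hg
  refine dvd_of_mulVec fun r => ?_
  -- decomposition of `r`
  have key : ∃ w : Z4, ∀ i, (p : ℤ) ∣ (W.transpose * R).mulVec (r - W.mulVec w) i := by
    set A := rd p (W.transpose * R) with hA
    set B := rd p L with hB
    have hAB : B = A * rd p W := by rw [hB, hA, h, rd_mul]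
    have hle : LinearMap.range B.mulVecLin ≤ LinearMap.range A.mulVecLin := by
      rw [hAB, Matrix.mulVecLin_mul]
      exact LinearMap.range_comp_le_range _ _
    have hrk : A.rank = (rd p (R * W)).rank := by
      have : A = (rd p (R * W)).transpose := by
        rw [hA, ← rd_transpose, Matrix.transpose_mul, hR.symm]
      rw [this, Matrix.rank_transpose]
    have hker : LinearMap.ker B.mulVecLin ≤ LinearMap.ker (rd p (R * W)).mulVecLin := by
      intro v hv
      obtain ⟨w, rfl⟩ := exists_lift v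
      rw [hB, mem_ker_rd] at hv
      rw [mem_ker_rd, ← Matrix.mulVec_mulVec]
      exact hC.1 w hv
    have h1 := rank_add_ker B
    have h2 := rank_add_ker (rd p (R * W))
    have h3 := Submodule.finrank_mono hker
    have h4 : A.rank ≤ B.rank := by omega
    have heq := Submodule.eq_of_le_of_finrank_le hle h4
    have h5 : A.mulVecLin (fun i => ((r i : ℤ) : ZMod p)) ∈ LinearMap.range B.mulVecLin := by
      rw [heq]
      exact LinearMap.mem_range_self _ _
    obtain ⟨v, hv⟩ := h5
    obtain ⟨w, rfl⟩ := exists_lift v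
    refine ⟨w, ?_⟩
    rw [← mem_ker_rd, LinearMap.mem_ker]
    have h6 : (fun i => (((r - W.mulVec w) i : ℤ) : ZMod p)) =
        (fun i => ((r i : ℤ) : ZMod p)) -
          (rd p W).mulVec (fun i => ((w i : ℤ) : ZMod p)) := by
      rw [rd_mulVec]
      funext i
      simp
    rw [h6, map_sub, ← hv, hAB]
    simp only [Matrix.mulVecLin_apply, Matrix.mulVec_mulVec, hA, sub_self]
  obtain ⟨w, hw⟩ := key
  set v := r - W.mulVec w with hv
  have hr : r = W.mulVec w + v := by rw [hv]; abel
  -- `x = W' v`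
  have h1 : ∀ i, ((p : ℤ)) ^ 2 ∣ L.mulVec (W'.mulVec v) i := by
    intro i
    have : L.mulVec (W'.mulVec v) = (p : ℤ) • (W.transpose * R).mulVec v := by
      rw [Matrix.mulVec_mulVec, h, Matrix.mul_assoc, hW, Matrix.mul_smul, Matrix.mul_one,
        Matrix.smul_mulVec]
    rw [this, Pi.smul_apply, smul_eq_mul, pow_two]
    exact mul_dvd_mul_left _ (hw i)
  have h2 := hC.2 _ (dvd_isom hg h1)
  intro i
  have h3 : (W * (g : M4) * W').mulVec r = (p : ℤ) • (W * (g : M4)).mulVec w +
      W.mulVec ((g : M4).mulVec (W'.mulVec v)) := by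
    rw [hr, Matrix.mulVec_add]
    congr 1
    · rw [Matrix.mulVec_mulVec, Matrix.mul_assoc, hW2, Matrix.mul_smul, Matrix.mul_one,
        Matrix.smul_mulVec]
    · rw [Matrix.mulVec_mulVec, Matrix.mulVec_mulVec, Matrix.mul_assoc]
  rw [h3, Pi.add_apply, Pi.smul_apply, smul_eq_mul]
  exact dvd_add (Dvd.intro _ rfl) (h2 i)

/-- A matrix over a field with a nonzero minor has kernel of dimension at most one. -/
theorem ker_le_one {F : Type*} [Field F] {A : Matrix (Fin 4) (Fin 4) F} (hA : A.adjugate ≠ 0) :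
    Module.finrank F (LinearMap.ker A.mulVecLin) ≤ 1 := by
  obtain ⟨i, j, hij⟩ : ∃ i j, A.adjugate i j ≠ 0 := by
    by_contra h
    push Not at h
    exact hA (Matrix.ext h)
  let f : LinearMap.ker A.mulVecLin →ₗ[F] F :=
    (LinearMap.proj i).comp (LinearMap.ker A.mulVecLin).subtype
  have hf : Function.Injective f := by
    rw [← LinearMap.ker_eq_bot, LinearMap.ker_eq_bot']
    rintro ⟨z, hz⟩ h0
    have h0' : z i = 0 := h0
    rw [LinearMap.mem_ker, Matrix.mulVecLin_apply] at hz
    by_contra hne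
    have hz0 : z ≠ 0 := fun h => hne (Subtype.ext h)
    apply hij
    have h1 : A.adjugate i j = (A.updateCol i (Pi.single j 1)).det := by
      rw [← Matrix.det_transpose, ← Matrix.updateRow_transpose, ← Matrix.adjugate_apply,
        ← Matrix.adjugate_transpose, Matrix.transpose_apply]
    rw [h1]
    refine Matrix.exists_mulVec_eq_zero_iff.1 ⟨z, hz0, ?_⟩
    funext k
    have h2 := congrFun hz k
    simp only [Matrix.mulVec, dotProduct, Pi.zero_apply] at h2 ⊢
    rw [← h2]
    refine Finset.sum_congr rfl fun l _ => ?_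
    by_cases hl : l = i
    · rw [hl, h0', mul_zero, mul_zero]
    · rw [Matrix.updateCol_ne hl]
  have := LinearMap.finrank_le_finrank_of_injective hf
  rwa [Module.finrank_self] at this

theorem stabII : StabIIStmt := by
  intro p R L W W' hp hR hL hW h hdet hprim hRW
  have hp0 : (p : ℤ) ≠ 0 := by exact_mod_cast hp.ne_zero
  have := Fact.mk hp
  have hW2 := swap hp0 hW
  refine ext_of_dvd (c := p) (d := 1) hp0 one_ne_zero hW (by rw [one_smul, h]) ?_
  -- `L W' = 0` modulo `p`
  have hLW' : L * W' = (R * W).transpose := by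
    apply cancel_smulM hp0
    rw [← Matrix.smul_mul, h, Matrix.mul_assoc, hW, Matrix.mul_smul, Matrix.mul_one,
      Matrix.transpose_mul, hR.symm]
  have hRWd : ∀ i j, (p : ℤ) ∣ (R * W) i j := by
    refine dvd_of_mulVec fun r i => ?_
    rw [← Matrix.mulVec_mulVec]
    exact hRW r i
  have hLW'd : ∀ r i, (p : ℤ) ∣ (L * W').mulVec r i := by
    intro r i
    rw [hLW']
    unfold Matrix.mulVec dotProduct
    exact Finset.dvd_sum fun j _ => Dvd.dvd.mul_right (hRWd j i) _
  -- the adjugate of `W'`
  have hdd : W.det * W'.det = (p : ℤ) ^ 4 := by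
    rw [← Matrix.det_mul, hW, Matrix.det_smul, Matrix.det_one]
    simp
  have hadj : rd p W'.adjugate ≠ 0 := by
    intro h0
    have h1 : ∀ i j, (p : ℤ) ∣ W'.adjugate i j := by
      intro i j
      have := congrFun (congrFun h0 i) j
      exact (ZMod.intCast_zmod_eq_zero_iff_dvd _ p).1 this
    choose N hN using h1
    have h2 : W'.adjugate = (p : ℤ) • Matrix.of N := by
      ext i j
      rw [hN i j]
      simp
    have h3 : W'.adjugate.det = W'.det ^ 3 := by
      rw [Matrix.det_adjugate]
      simp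
    rw [h2, Matrix.det_smul] at h3
    simp only [Fintype.card_fin] at h3
    have h4 : (p : ℤ) ^ 4 ∣ W'.det ^ 3 := ⟨_, h3.symm⟩
    have h5 : ((p : ℤ) ^ 4).natAbs ∣ (W'.det ^ 3).natAbs := Int.natAbs_dvd_natAbs.2 h4
    have h6 : W'.det.natAbs = p := by
      have h7 := congrArg Int.natAbs hdd
      rw [Int.natAbs_mul, hdet, Int.natAbs_pow, Int.natAbs_natCast] at h7
      have h8 : p ^ 3 * W'.det.natAbs = p ^ 3 * p := by rw [h7]; ring
      exact Nat.eq_of_mul_eq_mul_left (pow_pos hp.pos 3) h8
    rw [Int.natAbs_pow, Int.natAbs_pow, h6, Int.natAbs_natCast] at h5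
    have := (Nat.pow_dvd_pow_iff_le_right hp.one_lt).1 h5
    omega
  have hadj2 : (rd p W').adjugate ≠ 0 := by
    have : (rd p W').adjugate = rd p W'.adjugate := by
      have := RingHom.map_adjugate (Int.castRingHom (ZMod p)) W'
      exact this.symm
    rw [this]
    exact hadj
  have hk1 := ker_le_one hadj2
  have hk2 := rank_add_ker (rd p W')
  -- the kernel of `L`
  have hLne : rd p L ≠ 0 := by
    intro h0
    have h1 : ∀ i j, (p : ℤ) ∣ L i j := by
      intro i j
      have := congrFun (congrFun h0 i) j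
      exact (ZMod.intCast_zmod_eq_zero_iff_dvd _ p).1 this
    have h2 := hprim p h1
    rw [Int.isUnit_iff_natAbs_eq, Int.natAbs_natCast] at h2
    exact hp.one_lt.ne' h2
  have hLk : Module.finrank (ZMod p) (LinearMap.ker (rd p L).mulVecLin) ≤ 3 := by
    have h1 := rank_add_ker (rd p L)
    have h2 : (rd p L).rank ≠ 0 := by
      intro h0
      apply hLne
      have h3 : LinearMap.range (rd p L).mulVecLin = ⊥ := Submodule.finrank_eq_zero.1 h0
      rw [LinearMap.range_eq_bot] at h3
      ext i j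
      have h4 := congrFun (LinearMap.congr_fun h3 (Pi.single j 1)) i
      rwa [Matrix.mulVecLin_apply, Matrix.mulVec_single_one] at h4
    omega
  have hle : LinearMap.range (rd p W').mulVecLin ≤ LinearMap.ker (rd p L).mulVecLin := by
    rintro _ ⟨v, rfl⟩
    obtain ⟨w, rfl⟩ := exists_lift v
    rw [Matrix.mulVecLin_apply, rd_mulVec, mem_ker_rd, Matrix.mulVec_mulVec]
    exact hLW'd w
  have heq := Submodule.eq_of_le_of_finrank_le hle (by
    have : Module.finrank (ZMod p) (LinearMap.range (rd p W').mulVecLin) = (rd p W').rank := rfl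
    omega)
  have hsub : ∀ x : Z4, (∀ i, (p : ℤ) ∣ L.mulVec x i) → ∀ i, (p : ℤ) ∣ W.mulVec x i := by
    intro x hx
    rw [← mem_ker_rd] at hx
    rw [← heq] at hx
    obtain ⟨v, hv⟩ := hx
    obtain ⟨w, rfl⟩ := exists_lift v
    rw [← mem_ker_rd, ← hv]
    rw [Matrix.mulVecLin_apply, rd_mulVec, mem_ker_rd, Matrix.mulVec_mulVec, hW]
    intro i
    rw [Matrix.smul_mulVec, Pi.smul_apply, smul_eq_mul]
    exact Dvd.intro _ rfl
  intro g hg
  refine dvd_of_mulVec fun r => ?_
  have h1 : ∀ i, (p : ℤ) ∣ L.mulVec (W'.mulVec r) i := by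
    rw [Matrix.mulVec_mulVec]
    exact hLW'd r
  have h2 := hsub _ (dvd_isom hg h1)
  rw [Matrix.mulVec_mulVec, Matrix.mulVec_mulVec] at h2
  exact h2

end Pool.Agent.Refl.H13
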