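import Pool.Agent.Helper93_Refl.Trans
import Pool.Agent.Helper92_Refl.Final

/-!
# D5: non reflective sublattices
-/

namespace Pool.Agent.Refl.H13

open Matrix Pool.Agent.Refl

theorem rm_eq_refl (G : M4) (e : Z4) : rm G e = refl G e := by
  ext i j
  have h : bz G (Pi.single j 1) e = G.mulVec e j := by
    rw [bz_eq_dot]
    simp
  simp only [rm, refl, Matrix.of_apply, cfr, h]
  rw [mul_comm]

theorem br_W {L R W : M4} {c d : ℤ} (h : c • L = d • (W.transpose * R * W)) (x y : R4) :
    (c : ℝ) * br L x y = d * br R (act W x) (act W y) := by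
  have h7 : ∀ (a : ℤ) (A : M4), (a • A).map (Int.cast : ℤ → ℝ) =
      (a : ℝ) • A.map (Int.cast : ℤ → ℝ) := by
    intro a A; ext i j
    simp only [Matrix.map_apply, Matrix.smul_apply, smul_eq_mul, Int.cast_mul]
  have hmap : ∀ A B : M4, (A * B).map (Int.cast : ℤ → ℝ) =
      A.map (Int.cast : ℤ → ℝ) * B.map (Int.cast : ℤ → ℝ) := fun A B =>
    Matrix.map_mul (f := Int.castRingHom ℝ)
  have h1 := congrArg (fun A : M4 => A.map (Int.cast : ℤ → ℝ)) h
  simp only [h7, hmap] at h1
  have e1 : (c : ℝ) * br L x y = x ⬝ᵥ ((c : ℝ) • L.map (Int.cast : ℤ → ℝ)).mulVec y := by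
    rw [br_eq_dot, Matrix.smul_mulVec, dotProduct_smul, smul_eq_mul]
  rw [e1, h1, Matrix.smul_mulVec, dotProduct_smul, smul_eq_mul, br_eq_dot]
  congr 1
  unfold act
  rw [← Matrix.mulVec_mulVec, ← Matrix.mulVec_mulVec, Matrix.dotProduct_mulVec,
    Matrix.transpose_map, Matrix.vecMul_transpose]

theorem act_smul_one (p : ℤ) (x : R4) : act (p • (1 : M4)) x = (p : ℝ) • x := by
  unfold act
  have : (p • (1 : M4)).map (Int.cast : ℤ → ℝ) = (p : ℝ) • (1 : Matrix (Fin 4) (Fin 4) ℝ) := by
    ext i j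
    simp only [Matrix.map_apply, Matrix.smul_apply, smul_eq_mul, Int.cast_mul, Matrix.one_apply]
    split_ifs <;> simp
  rw [this, Matrix.smul_mulVec, Matrix.one_mulVec]

theorem act_W_inv {W W' : M4} {p : ℤ} (hp : p ≠ 0) (hW : W * W' = p • (1 : M4)) (x : R4) :
    act W ((p : ℝ)⁻¹ • act W' x) = x := by
  have hpR : (p : ℝ) ≠ 0 := by exact_mod_cast hp
  rw [act_smul, ← act_mul, hW, act_smul_one, smul_smul, inv_mul_cancel₀ hpR, one_smul]

theorem act_W_inj {W W' : M4} {p : ℤ} (hp : p ≠ 0) (hW : W * W' = p • (1 : M4)) {x y : R4}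
    (h : act W x = act W y) : x = y := by
  have hpR : (p : ℝ) ≠ 0 := by exact_mod_cast hp
  have h1 := congrArg (fun z => (p : ℝ)⁻¹ • act W' z) h
  simp only [← act_mul, H93.swap hp hW, act_smul_one, smul_smul, inv_mul_cancel₀ hpR,
    one_smul] at h1
  exact h1

section cham

variable {R : M4} {n : ℕ} {e : Fin n → Z4} {O : R4}

/-- roots do not vanish at interior points, and have constant sign -/
theorem side (h : Lat R) (hC : Cham R n e O) {r : Z4} (hr : IsRoot R r) :
    (br R O (up r) < 0 ∧ ∀ x : R4, (∀ i, br R x (up (e i)) ≤ 0) → br R x (up r) ≤ 0) ∨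
    (0 < br R O (up r) ∧ ∀ x : R4, (∀ i, br R x (up (e i)) ≤ 0) → 0 ≤ br R x (up r)) := by
  have key : ∀ s : Z4, IsRoot R s →
      (∀ x : R4, (∀ i, br R x (up (e i)) ≤ 0) → br R x (up s) ≤ 0) → br R O (up s) < 0 := by
    intro s hs hK
    refine lt_of_le_of_ne (hK O fun i => (hC.neg i).le) fun h0 => ?_
    have h3 : up s = 0 := by
      apply h.nondeg
      intro w
      have h4 : ∀ w, br R w (up s) ≤ 0 := by
        intro w
        obtain ⟨ε, hε, hε'⟩ := H92.exists_small (G := R) (e := e) O w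
          (fun j => Or.inl (hC.neg j))
        have h5 := hK _ hε'
        rw [br_add_left, br_smul_left, h0, zero_add] at h5
        by_contra hc
        push Not at hc
        have := mul_pos hε hc
        linarith
      have h5 := h4 w
      have h6 := h4 (-w)
      rw [br_neg_left] at h6
      rw [h.bcomm]
      linarith
    exact hs.ne_zero (up_eq_zero.1 h3)
  rcases hC.sep r hr with h1 | h1
  · exact Or.inl ⟨key r hr h1, h1⟩
  · refine Or.inr ⟨?_, h1⟩
    have h2 := key (-r) hr.neg (fun x hx => by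
      rw [up_neg, br_neg_right]
      linarith [h1 x hx])
    rw [up_neg, br_neg_right] at h2
    linarith

/-- the image of a point under a reflection -/
theorem br_reflU (h : Lat R) {s : Z4} (hs : IsRoot R s) (x : R4) (r : Z4) :
    br R (act (reflU R s : M4) x) (up r) = br R x (up ((reflU R s : M4).mulVec r)) := by
  rw [br_OG_left (reflU_mem_OG h hs), reflU_inv hs, act_up]

/-- crossing a facet -/
theorem cross (h : Lat R) (hC : Cham R n e O) (i : Fin n) {r : Z4} (hr : IsRoot R r)
    (hx : br R O (up r) * br R (act (reflU R (e i) : M4) O) (up r) ≤ 0) :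
    reflU R r = reflU R (e i) := by
  have hs := hC.root i
  have key : ∀ r : Z4, IsRoot R r → br R O (up r) < 0 →
      br R O (up r) * br R (act (reflU R (e i) : M4) O) (up r) ≤ 0 → r = e i := by
    intro r hr h0 hx
    have hK : ∀ y : R4, (∀ j, br R y (up (e j)) ≤ 0) → br R y (up r) ≤ 0 := by
      rcases side h hC hr with h1 | h1
      · exact h1.2
      · linarith [h1.1]
    have hr' : IsRoot R ((reflU R (e i) : M4).mulVec r) := hr.map (reflU_mem_OG h hs)
    have h1 : 0 ≤ br R O (up ((reflU R (e i) : M4).mulVec r)) := by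
      rw [← br_reflU h hs]
      nlinarith
    have hK' : ∀ y : R4, (∀ j, br R y (up (e j)) ≤ 0) →
        0 ≤ br R y (up ((reflU R (e i) : M4).mulVec r)) := by
      rcases side h hC hr' with h2 | h2
      · linarith [h2.1]
      · exact h2.2
    set z := H92.foot R O (e i) with hz
    have hzi : br R z (up (e i)) = 0 := H92.foot_self hs
    have hzj : ∀ j, j ≠ i → br R z (up (e j)) < 0 := fun j hj => H92.foot_neg hC hj
    have hzK : ∀ j, br R z (up (e j)) ≤ 0 := fun j => by
      by_cases hj : j = i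
      · rw [hj, hzi]
      · exact (hzj j hj).le
    have hsz : act (reflU R (e i) : M4) z = z := by
      rw [act_reflU hs, hzi]
      simp
    have h2 := hK' z hzK
    rw [← br_reflU h hs, hsz] at h2
    exact H92.eq_of_facet h hC hzi hzj hr hK (le_antisymm (hK z hzK) h2)
  rcases side h hC hr with h1 | h1
  · rw [key r hr h1.1 hx]
  · have h2 := key (-r) hr.neg (by rw [up_neg, br_neg_right]; linarith [h1.1]) (by
      rw [up_neg, br_neg_right, br_neg_right]
      linarith)
    rw [← reflU_neg hr, h2]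

/-- the walk -/
theorem walk (h : Lat R) (hC : Cham R n e O) (W : M4) : ∀ (l : List (Fin n)) (P : M4ˣ),
    P ∈ OG R → WordOK (fun i => rm R (e i)) W l (P : M4) →
    ∃ P' ∈ OG R, (∃ V, (P' : M4) * W = W * V) ∧ 4 < |(P' : M4).trace| ∧
      ∀ r, IsRoot R r → (∃ V : M4, (reflU R r : M4) * W = W * V) →
        0 < br R (act ((P⁻¹ : M4ˣ) : M4) O) (up r) *
          br R (act ((P'⁻¹ : M4ˣ) : M4) O) (up r) := by
  intro l
  induction l with
  | nil =>
    intro P hP hw
    refine ⟨P, hP, hw.1, hw.2, fun r hr _ => ?_⟩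
    have h1 : br R (act ((P⁻¹ : M4ˣ) : M4) O) (up r) = br R O (up ((P : M4).mulVec r)) := by
      rw [br_OG_left (inv_mem hP), inv_inv, act_up]
    rw [h1]
    rcases side h hC (hr.map hP) with h2 | h2
    · exact mul_pos_of_neg_of_neg h2.1 h2.1
    · exact mul_pos h2.1 h2.1
  | cons i l ih =>
    intro P hP hw
    obtain ⟨hw1, hw2⟩ := hw
    have hs := hC.root i
    have hrm : rm R (e i) = (reflU R (e i) : M4) := by rw [rm_eq_refl, coe_reflU hs]
    have hP1 : reflU R (e i) * P ∈ OG R := mul_mem (reflU_mem_OG h hs) hP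
    obtain ⟨P', hP', hV, htr, hsg⟩ := ih (reflU R (e i) * P) hP1 (by
      rw [Units.val_mul, ← hrm]
      exact hw2)
    refine ⟨P', hP', hV, htr, fun r hr hrW => ?_⟩
    have h1 := hsg r hr hrW
    -- the first step
    have hr2 : IsRoot R ((P : M4).mulVec r) := hr.map hP
    have e1 : br R (act ((P⁻¹ : M4ˣ) : M4) O) (up r) = br R O (up ((P : M4).mulVec r)) := by
      rw [br_OG_left (inv_mem hP), inv_inv, act_up]
    have e2 : br R (act (((reflU R (e i) * P)⁻¹ : M4ˣ) : M4) O) (up r) =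
        br R (act (reflU R (e i) : M4) O) (up ((P : M4).mulVec r)) := by
      rw [br_OG_left (inv_mem hP1), inv_inv, act_up, Units.val_mul, ← Matrix.mulVec_mulVec,
        br_reflU h hs]
    have h2 : 0 < br R O (up ((P : M4).mulVec r)) *
        br R (act (reflU R (e i) : M4) O) (up ((P : M4).mulVec r)) := by
      by_contra hcon
      push Not at hcon
      have h3 := cross h hC i hr2 hcon
      have h4 := reflU_map hr hP
      rw [h3] at h4
      obtain ⟨V, hV⟩ := hrW
      apply hw1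
      refine ⟨V, ?_⟩
      show rm R (e i) * ((P : M4) * W) = (P : M4) * W * V
      rw [hrm, ← Matrix.mul_assoc, ← Units.val_mul, h4, Units.val_mul, Matrix.mul_assoc, hV,
        Matrix.mul_assoc]
    rw [e2] at h1
    rw [e1]
    have h3 : 0 < (br R O (up ((P : M4).mulVec r)) *
        br R (act ((P'⁻¹ : M4ˣ) : M4) O) (up r)) *
        (br R (act (reflU R (e i) : M4) O) (up ((P : M4).mulVec r))) ^ 2 := by
      have := mul_pos h1 h2
      nlinarith
    exact pos_of_mul_pos_left h3 (sq_nonneg _)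

end cham

/-- roots of the sublattice -/
theorem root_up {L R W W' : M4} {p c d : ℤ} (hp : 0 < p) (hc : 0 < c) (hd : 0 < d)
    (hW : W * W' = p • (1 : M4)) (h : c • L = d • (W.transpose * R * W))
    (hL : Lat L) (H : ∀ g ∈ OG L, ∃ h ∈ OG R, (h : M4) * W = W * (g : M4)) {r : Z4}
    (hr : IsRoot L r) : ∃ (r' : Z4) (μ : ℝ), IsRoot R r' ∧ μ ≠ 0 ∧
      (∃ V : M4, (reflU R r' : M4) * W = W * V) ∧
      ∀ x : R4, br L x (up r) = μ * br R (act W x) (up r') := by
  obtain ⟨h', hh', hhW⟩ := H _ (reflU_mem_OG hL hr)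
  obtain ⟨r', hr', rfl⟩ := (H93.refl_up hp hc hd hW h (reflU_isReflection hr) hhW).exists_root
  have h1 : (2 : ℤ) • W.mulVec r = cfr R (W.mulVec r) r' • r' := by
    have h2 : (reflU R r' : M4).mulVec (W.mulVec r) = -(W.mulVec r) := by
      rw [Matrix.mulVec_mulVec, hhW, ← Matrix.mulVec_mulVec, reflU_self hr, Matrix.mulVec_neg]
    rw [reflU_mulVec hr'] at h2
    rw [two_smul]
    have h3 : W.mulVec r + W.mulVec r - cfr R (W.mulVec r) r' • r' = 0 := by
      have : W.mulVec r + W.mulVec r - cfr R (W.mulVec r) r' • r' =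
        W.mulVec r + (W.mulVec r - cfr R (W.mulVec r) r' • r') := by abel
      rw [this, h2]
      abel
    exact sub_eq_zero.1 h3
  set k := cfr R (W.mulVec r) r' with hk
  have hk0 : k ≠ 0 := by
    intro h0
    rw [h0, zero_smul] at h1
    have h2 : W.mulVec r = 0 := H93.cancel_smul two_ne_zero (by rw [h1, smul_zero])
    have h3 : p • r = 0 := by
      have : p • r = W'.mulVec (W.mulVec r) := by
        rw [Matrix.mulVec_mulVec, H93.swap hp.ne' hW, Matrix.smul_mulVec, Matrix.one_mulVec]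
      rw [this, h2, Matrix.mulVec_zero]
    exact hr.ne_zero (H93.cancel_smul hp.ne' (by rw [h3, smul_zero]))
  have hcR : (c : ℝ) ≠ 0 := by exact_mod_cast hc.ne'
  have hdR : (d : ℝ) ≠ 0 := by exact_mod_cast hd.ne'
  have hkR : (k : ℝ) ≠ 0 := by exact_mod_cast hk0
  refine ⟨r', (d : ℝ) / c * (k / 2), hr', by positivity, ⟨_, hhW⟩, fun x => ?_⟩
  have h2 := br_W h x (up r)
  rw [act_up] at h2
  have h3 : (2 : ℝ) * br R (act W x) (up (W.mulVec r)) = k * br R (act W x) (up r') := by
    have h4 := congrArg up h1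
    rw [up_smul, up_smul] at h4
    have h5 := congrArg (br R (act W x)) h4
    rw [br_smul_right, br_smul_right] at h5
    exact_mod_cast h5
  field_simp
  linear_combination 2 * h2 + (d : ℝ) * h3

theorem word (hCh : ChamStmt) : WordStmt := by
  intro R n e O hR hC L W W' p c d hp hc hd hW h hL H l _ hw hrf
  have hpZ : (0 : ℤ) < p := by exact_mod_cast hp
  have hcZ : (0 : ℤ) < c := by exact_mod_cast hc
  have hdZ : (0 : ℤ) < d := by exact_mod_cast hd
  obtain ⟨P, hP, ⟨V, hV⟩, htr, hsg⟩ := walk hR hC W l 1 (one_mem _) (by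
    rw [Units.val_one]; exact hw)
  obtain ⟨g, hg, hgV⟩ := H93.og_down hpZ hcZ hW h hP hV
  set OL : R4 := ((p : ℤ) : ℝ)⁻¹ • act W' O with hOL
  set xL : R4 := ((p : ℤ) : ℝ)⁻¹ • act W' (act ((P⁻¹ : M4ˣ) : M4) O) with hxL
  have hWO : act W OL = O := act_W_inv hpZ.ne' hW O
  have hWx : act W xL = act ((P⁻¹ : M4ˣ) : M4) O := act_W_inv hpZ.ne' hW _
  have hO1 : br L OL OL < 0 := by
    have h1 := br_W h OL OL
    rw [hWO] at h1
    have h2 : (0 : ℝ) < ((c : ℤ) : ℝ) := by exact_mod_cast hcZ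
    have h3 : (0 : ℝ) < ((d : ℤ) : ℝ) := by exact_mod_cast hdZ
    have h4 := mul_neg_of_pos_of_neg h3 hC.Oneg
    rw [← h1] at h4
    by_contra hcon
    push Not at hcon
    have := mul_nonneg h2.le hcon
    linarith
  have hgen : ∀ r : Z4, IsRoot L r → br L OL (up r) ≠ 0 := by
    intro r hr
    obtain ⟨r', μ, hr', hμ, -, hbr⟩ := root_up hpZ hcZ hdZ hW h hL H hr
    rw [hbr, hWO]
    refine mul_ne_zero hμ ?_
    rcases side hR hC hr' with h1 | h1
    · exact h1.1.ne
    · exact h1.1.ne'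
  obtain ⟨n', e', hC'⟩ := hCh L hL hrf OL hO1 hgen
  have hx : ∀ i, br L xL (up (e' i)) < 0 := by
    intro i
    obtain ⟨r', μ, hr', hμ, hrW, hbr⟩ := root_up hpZ hcZ hdZ hW h hL H (hC'.root i)
    have h1 := hsg r' hr' hrW
    have h2 : act (((1 : M4ˣ)⁻¹ : M4ˣ) : M4) O = O := by
      rw [inv_one, Units.val_one]
      unfold act
      have : (1 : M4).map (Int.cast : ℤ → ℝ) = (1 : Matrix (Fin 4) (Fin 4) ℝ) := by
        ext i j
        simp only [Matrix.map_apply, Matrix.one_apply]
        split_ifs <;> simp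
      rw [this, Matrix.one_mulVec]
    rw [h2] at h1
    have h3 := hC'.neg i
    rw [hbr, hWO] at h3
    rw [hbr, hWx]
    have hμ2 : 0 < μ ^ 2 := by positivity
    by_contra hcon
    push Not at hcon
    have h4 := mul_pos hμ2 h1
    have h5 := mul_nonpos_of_nonpos_of_nonneg h3.le hcon
    nlinarith
  have hgx : act (g : M4) xL = OL := by
    apply act_W_inj hpZ.ne' hW
    rw [← act_mul, hgV, ← hV, act_mul, hWx, act_act_inv, hWO]
  have h1 := H92.perm L n' e' OL hL hC' g hg xL hx (fun i => by rw [hgx]; exact hC'.neg i)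
  obtain ⟨m, hm, hm1⟩ := H92.finOrd L n' e' OL hL hC' g hg h1
  have h2 := H92.trace (g : M4) m hm hm1
  have h3 : (P : M4).trace = (g : M4).trace := by
    have h4 : ((P : M4) * W * W').trace = (W * (g : M4) * W').trace := by rw [hV, hgV]
    rw [Matrix.mul_assoc, hW, Matrix.trace_mul_comm (W * (g : M4)) W', ← Matrix.mul_assoc,
      H93.swap hpZ.ne' hW] at h4
    simp only [Matrix.mul_smul, Matrix.mul_one, Matrix.smul_mul, Matrix.one_mul,
      Matrix.trace_smul, smul_eq_mul] at h4
    exact mul_left_cancel₀ hpZ.ne' h4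
  rw [h3] at htr
  linarith

end Pool.Agent.Refl.H13
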